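import Pool.Agent.helper82.UN.SpecP

/-!
# Row unh:PCH (MP_cf4097_nt): change of variables to the coordinates with respect to a basis
-/

set_option autoImplicit false

open NumberField Complex MeasureTheory nonZeroDivisors

namespace Pool.Agent.UN

theorem PCH_vol (ι : Type) [Fintype ι] : (Pi.basisFun ℝ ι).addHaar = (volume : Measure (ι → ℝ)) := by
  rw [Module.Basis.addHaar_def, Module.Basis.parallelepiped_basisFun, addHaarMeasure_eq_volume_pi]

theorem PCH_map {V : Type} [NormedAddCommGroup V] [NormedSpace ℝ V] [FiniteDimensional ℝ V]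
    [MeasurableSpace V] [BorelSpace V] (ι : Type) [Fintype ι] (b : Module.Basis ι ℝ V) :
    Measure.map b.equivFun.symm.toContinuousLinearEquiv volume = b.addHaar := by
  rw [← PCH_vol, Module.Basis.map_addHaar]
  have h : (Pi.basisFun ℝ ι).map b.equivFun.symm.toContinuousLinearEquiv.toLinearEquiv = b := by
    classical
    refine Module.Basis.eq_of_apply_eq fun i => ?_
    rw [Module.Basis.map_apply, Pi.basisFun_apply]
    show b.equivFun.symm (Pi.single i 1) = b i
    rw [Module.Basis.equivFun_symm_apply, Finset.sum_eq_single i]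
    · rw [Pi.single_eq_same, one_smul]
    · intro j _ hj
      rw [Pi.single_eq_of_ne hj, zero_smul]
    · intro h
      exact absurd (Finset.mem_univ i) h
  rw [h]

theorem PCH : PCH_stmt := by
  intro V _ _ _ _ _ μ _ ι _ b f
  have h1 : ∫ t : ι → ℝ, f (∑ i, t i • b i) = ∫ v, f v ∂b.addHaar := by
    rw [← PCH_map ι b]
    have := (b.equivFun.symm.toContinuousLinearEquiv.toHomeomorph.toMeasurableEquiv).measurableEmbedding.integral_map (μ := (volume : Measure (ι → ℝ))) f
    refine Eq.trans ?_ this.symm
    refine integral_congr_ae (Filter.Eventually.of_forall fun t => ?_)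
    show f (∑ i, t i • b i) = f (b.equivFun.symm t)
    rw [Module.Basis.equivFun_symm_apply]
  have h2 : μ = μ (ZSpan.fundamentalDomain b) • b.addHaar := by
    rw [measure_congr (ZSpan.fundamentalDomain_ae_parallelepiped b μ), Module.Basis.addHaar_def]
    exact Measure.addHaarMeasure_unique μ b.parallelepiped
  have h3 : μ (ZSpan.fundamentalDomain b) ≠ 0 := ZSpan.measure_fundamentalDomain_ne_zero b
  have h4 : μ (ZSpan.fundamentalDomain b) ≠ ⊤ := by
    rw [measure_congr (ZSpan.fundamentalDomain_ae_parallelepiped b μ)]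
    exact b.parallelepiped.isCompact.measure_ne_top
  have h5 : ∫ v, f v ∂μ = (μ (ZSpan.fundamentalDomain b)).toReal • ∫ v, f v ∂b.addHaar := by
    have h6 : ∫ v, f v ∂μ = ∫ v, f v ∂(μ (ZSpan.fundamentalDomain b) • b.addHaar) := by rw [← h2]
    rw [h6, integral_smul_measure]
  have h7 : (μ (ZSpan.fundamentalDomain b)).toReal ≠ 0 := ENNReal.toReal_ne_zero.2 ⟨h3, h4⟩
  rw [h1, h5, Complex.real_smul, ← mul_assoc, ← Complex.ofReal_mul, inv_mul_cancel₀ h7, Complex.ofReal_one, one_mul]

end Pool.Agent.UN
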